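import Mathlib
import Pool.Agent.R176.PolyCert
import Pool.Agent.R176.JoinLattice

/-!
# A 7-dimensional polytope without vertex-facet assignment that is not a free join

The polytope is the convex hull of 19 explicit points in `ℝ^7`; it has 19 vertices and 19 facets.
With coordinates `(y₁, y₂, h, u, a, b, c)` it is
`{ y ∈ h Q, 0 ≤ u, |a| + |b| ≤ c, max h u + (|a| + |b| + c) / 2 ≤ 1 }`, `Q` a hexagon.
-/

namespace Pool.Agent.Results.MP_7ca032_co.NonJoinSeven

open Set Pool.Agent.R176.PolyCert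

/-- `P` is a convex polytope: the convex hull of finitely many points. -/
def IsPolytope {n : ℕ} (P : Set (EuclideanSpace ℝ (Fin n))) : Prop :=
  ∃ S : Finset (EuclideanSpace ℝ (Fin n)), P = convexHull ℝ (S : Set (EuclideanSpace ℝ (Fin n)))

/-- The dimension of a set: the dimension of its affine span. -/
noncomputable def pdim {n : ℕ} (P : Set (EuclideanSpace ℝ (Fin n))) : ℕ :=
  Module.finrank ℝ (vectorSpan ℝ P)

/-- The facets of `P`: its nonempty exposed faces of dimension `dim P - 1`. -/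
def facets {n : ℕ} (P : Set (EuclideanSpace ℝ (Fin n))) : Set (Set (EuclideanSpace ℝ (Fin n))) :=
  {F | IsExposed ℝ P F ∧ F.Nonempty ∧ pdim F + 1 = pdim P}

/-- `P` has a vertex-facet assignment: an injective map from the vertices to non-incident facets,
or an injective map from the facets to non-incident vertices. -/
def HasVertexFacetAssignment {n : ℕ} (P : Set (EuclideanSpace ℝ (Fin n))) : Prop :=
  (∃ f : P.extremePoints ℝ → facets P, Function.Injective f ∧
    ∀ v, (v : EuclideanSpace ℝ (Fin n)) ∉ (f v : Set (EuclideanSpace ℝ (Fin n)))) ∨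
  (∃ g : facets P → P.extremePoints ℝ, Function.Injective g ∧
    ∀ F : facets P, (g F : EuclideanSpace ℝ (Fin n)) ∉ (F : Set (EuclideanSpace ℝ (Fin n))))

/-- The face lattice of `P` (exposed faces, including `∅` and `P`), ordered by inclusion. -/
abbrev FaceLattice {n : ℕ} (P : Set (EuclideanSpace ℝ (Fin n))) : Type :=
  {F : Set (EuclideanSpace ℝ (Fin n)) // IsExposed ℝ P F}

/-- `P` is a free join: its face lattice is isomorphic to that of `conv (P₁ ∪ P₂)` for nonempty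
polytopes `P₁, P₂` of some `ℝ^m` with `dim (P₁ ∪ P₂) = dim P₁ + dim P₂ + 1`. -/
def IsFreeJoin {n : ℕ} (P : Set (EuclideanSpace ℝ (Fin n))) : Prop :=
  ∃ (m : ℕ) (P₁ P₂ : Set (EuclideanSpace ℝ (Fin m))), IsPolytope P₁ ∧ IsPolytope P₂ ∧
    P₁.Nonempty ∧ P₂.Nonempty ∧ pdim (P₁ ∪ P₂) = pdim P₁ + pdim P₂ + 1 ∧
    Nonempty (FaceLattice P ≃o FaceLattice (convexHull ℝ (P₁ ∪ P₂)))

/-! ### The data -/

/-- integer coordinates of the 19 vertices -/
def V : Fin 19 → Fin 7 → ℤ := ![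
  ![0,0,0,0,0,0,0],
  ![0,0,0,1,0,0,0],
  ![1,0,1,0,0,0,0], ![1,1,1,0,0,0,0], ![0,1,1,0,0,0,0],
  ![-1,0,1,0,0,0,0], ![-1,-1,1,0,0,0,0], ![0,-1,1,0,0,0,0],
  ![1,0,1,1,0,0,0], ![1,1,1,1,0,0,0], ![0,1,1,1,0,0,0],
  ![-1,0,1,1,0,0,0], ![-1,-1,1,1,0,0,0], ![0,-1,1,1,0,0,0],
  ![0,0,0,0,1,0,1], ![0,0,0,0,-1,0,1], ![0,0,0,0,0,1,1], ![0,0,0,0,0,-1,1],
  ![0,0,0,0,0,0,2]]

/-- integer coefficients of the 19 inequalities; the last 8 are the facets containing `σ` -/
def A : Fin 19 → Fin 7 → ℤ := ![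
  ![1,0,-1,0,0,0,0], ![-1,0,-1,0,0,0,0], ![0,1,-1,0,0,0,0], ![0,-1,-1,0,0,0,0],
  ![1,-1,-1,0,0,0,0], ![-1,1,-1,0,0,0,0],
  ![0,0,0,-1,0,0,0],
  ![0,0,0,2,1,1,1], ![0,0,0,2,1,-1,1], ![0,0,0,2,-1,1,1], ![0,0,0,2,-1,-1,1],
  ![0,0,2,0,1,1,1], ![0,0,2,0,1,-1,1], ![0,0,2,0,-1,1,1], ![0,0,2,0,-1,-1,1],
  ![0,0,0,0,1,1,-1], ![0,0,0,0,1,-1,-1], ![0,0,0,0,-1,1,-1], ![0,0,0,0,-1,-1,-1]]

/-- right-hand sides -/
def b : Fin 19 → ℤ := ![0,0,0,0,0,0,0,2,2,2,2,2,2,2,2,0,0,0,0]

/-- integer slack -/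
def slack (i j : Fin 19) : ℤ := b j - ∑ k, A j k * V i k

/-- the vertices -/
noncomputable def v (i : Fin 19) : EuclideanSpace ℝ (Fin 7) := pt fun k => (V i k : ℝ)

/-- the functionals -/
noncomputable def a (j : Fin 19) : StrongDual ℝ (EuclideanSpace ℝ (Fin 7)) :=
  fn fun k => (A j k : ℝ)

/-- the polytope -/
def P : Set (EuclideanSpace ℝ (Fin 7)) := convexHull ℝ (range v)

theorem a_v (i j : Fin 19) : a j (v i) = (b j : ℝ) - (slack i j : ℝ) := by
  simp only [a, v, fn_apply, pt_apply, slack]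
  push_cast
  ring

theorem slack_nonneg : ∀ i j, 0 ≤ slack i j := by decide +kernel

theorem a_le_of_mem {x : EuclideanSpace ℝ (Fin 7)} (hx : x ∈ P) (j : Fin 19) : a j x ≤ b j := by
  have : P ⊆ {x | a j x ≤ b j} := by
    apply convexHull_min _ (convex_halfSpace_le (a j).toLinearMap.isLinear _)
    rintro _ ⟨i, rfl⟩
    have h := slack_nonneg i j
    have h' : (0 : ℝ) ≤ slack i j := by exact_mod_cast h
    change a j (v i) ≤ b j
    rw [a_v]
    linarith
  exact this hx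

/-! ### The description by inequalities -/

theorem hexagon (y₁ y₂ h : ℝ) (h1 : y₁ ≤ h) (h2 : -y₁ ≤ h) (h3 : y₂ ≤ h) (h4 : -y₂ ≤ h)
    (h5 : y₁ - y₂ ≤ h) (h6 : y₂ - y₁ ≤ h) :
    ∃ w : Fin 6 → ℝ, (∀ i, 0 ≤ w i) ∧ w 0 + w 1 + w 2 + w 3 + w 4 + w 5 = h ∧
      w 0 + w 1 - w 3 - w 4 = y₁ ∧ w 1 + w 2 - w 4 - w 5 = y₂ := by
  rcases le_total 0 y₁ with hy1 | hy1 <;> rcases le_total 0 y₂ with hy2 | hy2 <;>
    rcases le_total y₁ y₂ with hy3 | hy3
  · -- 0 ≤ y₁ ≤ y₂
    refine ⟨![(h - y₂) / 2, y₁, y₂ - y₁, (h - y₂) / 2, 0, 0], ?_, ?_, ?_, ?_⟩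
    · intro i; fin_cases i <;> simp <;> linarith
    all_goals simp; try ring
  · refine ⟨![y₁ - y₂ + (h - y₁) / 2, y₂, 0, (h - y₁) / 2, 0, 0], ?_, ?_, ?_, ?_⟩
    · intro i; fin_cases i <;> simp <;> linarith
    all_goals simp; try ring
  · have : y₁ = 0 := by linarith
    have : y₂ = 0 := by linarith
    subst_vars
    refine ⟨![h / 2, 0, 0, h / 2, 0, 0], ?_, ?_, ?_, ?_⟩
    · intro i; fin_cases i <;> simp <;> linarith
    all_goals simp; try ring
  · -- y₂ ≤ 0 ≤ y₁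
    refine ⟨![y₁ + (h - (y₁ - y₂)) / 2, 0, 0, (h - (y₁ - y₂)) / 2, 0, -y₂], ?_, ?_, ?_, ?_⟩
    · intro i; fin_cases i <;> simp <;> linarith
    all_goals simp; try ring
  · -- y₁ ≤ 0 ≤ y₂
    refine ⟨![(h - (y₂ - y₁)) / 2, 0, y₂, -y₁ + (h - (y₂ - y₁)) / 2, 0, 0], ?_, ?_, ?_, ?_⟩
    · intro i; fin_cases i <;> simp <;> linarith
    all_goals simp; try ring
  · have : y₁ = 0 := by linarith
    have : y₂ = 0 := by linarith
    subst_vars
    refine ⟨![h / 2, 0, 0, h / 2, 0, 0], ?_, ?_, ?_, ?_⟩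
    · intro i; fin_cases i <;> simp <;> linarith
    all_goals simp; try ring
  · -- y₁ ≤ y₂ ≤ 0
    refine ⟨![(h + y₁) / 2, 0, 0, y₂ - y₁ + (h + y₁) / 2, -y₂, 0], ?_, ?_, ?_, ?_⟩
    · intro i; fin_cases i <;> simp <;> linarith
    all_goals simp; try ring
  · refine ⟨![(h + y₂) / 2, 0, 0, (h + y₂) / 2, -y₁, y₁ - y₂], ?_, ?_, ?_, ?_⟩
    · intro i; fin_cases i <;> simp <;> linarith
    all_goals simp; try ring

theorem octa (p q c : ℝ) (h1 : p + q ≤ c) (h2 : p - q ≤ c) (h3 : -p + q ≤ c) (h4 : -p - q ≤ c) :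
    ∃ (w : Fin 5 → ℝ) (s t : ℝ), (∀ i, 0 ≤ w i) ∧ (s = 1 ∨ s = -1) ∧ (t = 1 ∨ t = -1) ∧
      w 0 + w 1 + w 2 + w 3 + w 4 = (s * p + t * q + c) / 2 ∧
      w 0 - w 1 = p ∧ w 2 - w 3 = q ∧ w 0 + w 1 + w 2 + w 3 + 2 * w 4 = c := by
  rcases le_total 0 p with hp | hp <;> rcases le_total 0 q with hq | hq
  · refine ⟨![p, 0, q, 0, (c - p - q) / 2], 1, 1, ?_, by simp, by simp, ?_, ?_, ?_, ?_⟩
    · intro i; fin_cases i <;> simp <;> linarith
    all_goals simp; try ring
  · refine ⟨![p, 0, 0, -q, (c - p + q) / 2], 1, -1, ?_, by simp, by simp, ?_, ?_, ?_, ?_⟩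
    · intro i; fin_cases i <;> simp <;> linarith
    all_goals simp; try ring
  · refine ⟨![0, -p, q, 0, (c + p - q) / 2], -1, 1, ?_, by simp, by simp, ?_, ?_, ?_, ?_⟩
    · intro i; fin_cases i <;> simp <;> linarith
    all_goals simp; try ring
  · refine ⟨![0, -p, 0, -q, (c + p + q) / 2], -1, -1, ?_, by simp, by simp, ?_, ?_, ?_, ?_⟩
    · intro i; fin_cases i <;> simp <;> linarith
    all_goals simp; try ring

theorem mem_of_weights {x : EuclideanSpace ℝ (Fin 7)} (μ : Fin 19 → ℝ) (h0 : ∀ i, 0 ≤ μ i)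
    (h1 : ∑ i, μ i = 1) (hx : ∀ k, ∑ i, μ i * (V i k : ℝ) = x k) : x ∈ P := by
  have hx' : x = ∑ i, μ i • v i := by
    ext k
    rw [← hx k]
    simp [v]
  rw [hx']
  exact (convex_convexHull ℝ _).sum_mem (fun i _ => h0 i) h1
    fun i _ => subset_convexHull ℝ _ ⟨i, rfl⟩

theorem combine {x : EuclideanSpace ℝ (Fin 7)} (α β : ℝ) (p r : Fin 6 → ℝ) (z : Fin 5 → ℝ)
    (hα : 0 ≤ α) (hβ : 0 ≤ β) (hp : ∀ i, 0 ≤ p i) (hr : ∀ i, 0 ≤ r i) (hz : ∀ i, 0 ≤ z i)
    (h1 : α + β + (p 0 + p 1 + p 2 + p 3 + p 4 + p 5) + (r 0 + r 1 + r 2 + r 3 + r 4 + r 5) +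
      (z 0 + z 1 + z 2 + z 3 + z 4) = 1)
    (e0 : (p 0 + r 0) + (p 1 + r 1) - (p 3 + r 3) - (p 4 + r 4) = x 0)
    (e1 : (p 1 + r 1) + (p 2 + r 2) - (p 4 + r 4) - (p 5 + r 5) = x 1)
    (e2 : (p 0 + p 1 + p 2 + p 3 + p 4 + p 5) + (r 0 + r 1 + r 2 + r 3 + r 4 + r 5) = x 2)
    (e3 : β + (r 0 + r 1 + r 2 + r 3 + r 4 + r 5) = x 3)
    (e4 : z 0 - z 1 = x 4) (e5 : z 2 - z 3 = x 5)
    (e6 : z 0 + z 1 + z 2 + z 3 + 2 * z 4 = x 6) : x ∈ P := by
  refine mem_of_weights ![α, β, p 0, p 1, p 2, p 3, p 4, p 5, r 0, r 1, r 2, r 3, r 4, r 5,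
    z 0, z 1, z 2, z 3, z 4] ?_ ?_ ?_
  · intro i
    fin_cases i <;> simp [hα, hβ, hp, hr, hz]
  · simp only [Fin.sum_univ_succ, Fin.isValue]
    simp
    linarith
  · intro k
    fin_cases k
    · simp [Fin.sum_univ_succ, V]; linarith
    · simp [Fin.sum_univ_succ, V]; linarith
    · simp [Fin.sum_univ_succ, V]; linarith
    · simp [Fin.sum_univ_succ, V]; linarith
    · simp [Fin.sum_univ_succ, V]; linarith
    · simp [Fin.sum_univ_succ, V]; linarith
    · simp [Fin.sum_univ_succ, V]; linarith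

theorem mem_of_ineq {x : EuclideanSpace ℝ (Fin 7)} (hx : ∀ j, a j x ≤ b j) : x ∈ P := by
  have e : ∀ j, a j x = ∑ k, (A j k : ℝ) * x k := fun j => fn_apply _ _
  simp only [e] at hx
  have H : ∀ j, (∑ k, (A j k : ℝ) * x k) ≤ b j := hx
  have h0 := H 0
  have h1 := H 1
  have h2 := H 2
  have h3 := H 3
  have h4 := H 4
  have h5 := H 5
  have h6 := H 6
  have h7 := H 7
  have h8 := H 8
  have h9 := H 9
  have h10 := H 10
  have h11 := H 11
  have h12 := H 12
  have h13 := H 13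
  have h14 := H 14
  have h15 := H 15
  have h16 := H 16
  have h17 := H 17
  have h18 := H 18
  clear H hx e
  simp [A, b, Fin.sum_univ_succ] at h0 h1 h2 h3 h4 h5 h6 h7 h8 h9 h10 h11 h12 h13 h14 h15 h16 h17 h18
  obtain ⟨w, hw, hws, hw1, hw2⟩ := hexagon (x 0) (x 1) (x 2) (by linarith) (by linarith)
    (by linarith) (by linarith) (by linarith) (by linarith)
  obtain ⟨z, s, t, hz, hs, ht, hzs, hz1, hz2, hz3⟩ := octa (x 4) (x 5) (x 6) (by linarith)
    (by linarith) (by linarith) (by linarith)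
  have hsum_h : (x 2) + (s * x 4 + t * x 5 + x 6) / 2 ≤ 1 := by
    rcases hs with rfl | rfl <;> rcases ht with rfl | rfl <;> linarith
  have hsum_u : (x 3) + (s * x 4 + t * x 5 + x 6) / 2 ≤ 1 := by
    rcases hs with rfl | rfl <;> rcases ht with rfl | rfl <;> linarith
  have hh : 0 ≤ x 2 := by linarith
  rcases le_total (x 3) (x 2) with hc | hc
  · rcases hh.eq_or_lt with hh0 | hh0
    · have hu0 : x 3 = 0 := by linarith
      have hw0 : ∀ i, w i = 0 := by
        have g0 := hw 0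
        have g1 := hw 1
        have g2 := hw 2
        have g3 := hw 3
        have g4 := hw 4
        have g5 := hw 5
        intro i
        fin_cases i <;> simp <;> linarith
      refine combine (1 - (z 0 + z 1 + z 2 + z 3 + z 4)) 0 (fun _ => 0) (fun _ => 0) z
        ?_ le_rfl (fun _ => le_rfl) (fun _ => le_rfl) hz ?_ ?_ ?_ ?_ ?_ hz1 hz2 hz3
      · linarith
      · ring
      · rw [← hw1]; simp [hw0]
      · rw [← hw2]; simp [hw0]
      · rw [← hh0]; ring
      · rw [hu0]; ring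
    · have hl0 : 0 ≤ x 3 / x 2 := by positivity
      have hl1 : x 3 / x 2 ≤ 1 := (div_le_one hh0).2 hc
      have hl2 : x 2 * (x 3 / x 2) = x 3 := by field_simp
      generalize hlam : x 3 / x 2 = lam at hl0 hl1 hl2
      refine combine (1 - x 2 - (z 0 + z 1 + z 2 + z 3 + z 4)) 0 (fun i => w i * (1 - lam))
        (fun i => w i * lam) z ?_ le_rfl (fun i => mul_nonneg (hw i) (by linarith))
        (fun i => mul_nonneg (hw i) hl0) hz ?_ ?_ ?_ ?_ ?_ hz1 hz2 hz3
      · linarith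
      · rw [← hws]; ring
      · rw [← hw1]; ring
      · rw [← hw2]; ring
      · rw [← hws]; ring
      · rw [← hl2, ← hws]; ring
  · refine combine (1 - x 3 - (z 0 + z 1 + z 2 + z 3 + z 4)) (x 3 - x 2) (fun _ => 0) w z
        ?_ (by linarith) (fun _ => le_rfl) hw hz ?_ ?_ ?_ ?_ ?_ hz1 hz2 hz3
    · linarith
    · linarith
    · linarith
    · linarith
    · linarith
    · linarith

theorem P_eq : P = {x | ∀ j, a j x ≤ (fun j => (b j : ℝ)) j} := by
  ext x
  exact ⟨fun hx j => a_le_of_mem hx j, fun hx => mem_of_ineq hx⟩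

/-! ### Vertices -/

/-- coefficients of a functional exposing the `i`-th vertex -/
def Lv (i : Fin 19) (k : Fin 7) : ℤ := ∑ j, if slack i j = 0 then A j k else 0

theorem Lv_spec : ∀ i i', i' ≠ i → ∑ k, Lv i k * V i' k < ∑ k, Lv i k * V i k := by
  decide +kernel

theorem v_injective : Function.Injective v := by
  intro i i' h
  by_contra hne
  have h1 := Lv_spec i i' (fun h => hne h.symm)
  have h2 : ∀ k, V i k = V i' k := by
    intro k
    have := congrArg (fun x : EuclideanSpace ℝ (Fin 7) => x k) h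
    simp only [v, pt_apply] at this
    exact_mod_cast this
  simp only [h2] at h1
  exact lt_irrefl _ h1

theorem exposed_v (i : Fin 19) : IsExposed ℝ P {v i} := by
  apply isExposed_singleton (mem_range_self i) (fn fun k => (Lv i k : ℝ))
  rintro _ ⟨i', rfl⟩ hne
  have h1 := Lv_spec i i' (fun h => hne (by rw [h]))
  simp only [fn_apply, v, pt_apply]
  exact_mod_cast h1

theorem extreme_v (i : Fin 19) : v i ∈ P.extremePoints ℝ :=
  extreme_of_isExposed_singleton (exposed_v i)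

theorem extreme_subset {x : EuclideanSpace ℝ (Fin 7)} (hx : x ∈ P.extremePoints ℝ) :
    ∃ i, v i = x := by
  have := extremePoints_convexHull_subset hx
  exact this

/-! ### Faces -/

/-- the face cut out by the `j`-th inequality -/
def face (j : Fin 19) : Set (EuclideanSpace ℝ (Fin 7)) := {x ∈ P | a j x = b j}

theorem face_exposed (j : Fin 19) : IsExposed ℝ P (face j) :=
  isExposed_section (a j) fun _ hx => a_le_of_mem hx j

theorem v_mem_P (i : Fin 19) : v i ∈ P := subset_convexHull ℝ _ ⟨i, rfl⟩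

theorem v_mem_face {i j : Fin 19} : v i ∈ face j ↔ slack i j = 0 := by
  constructor
  · rintro ⟨_, h⟩
    rw [a_v] at h
    have : (slack i j : ℝ) = 0 := by linarith
    exact_mod_cast this
  · intro h
    refine ⟨v_mem_P i, ?_⟩
    rw [a_v, h]
    simp

theorem A_ne : ∀ j, ∃ k, A j k ≠ 0 := by decide +kernel

theorem a_ne (j : Fin 19) : a j ≠ 0 := by
  obtain ⟨k, hk⟩ := A_ne j
  exact fn_ne_zero (i := k) (by exact_mod_cast hk)

theorem subset_face {F : Set (EuclideanSpace ℝ (Fin 7))} (hF : IsExposed ℝ P F)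
    (hne : F.Nonempty) (hFP : F ≠ P) : ∃ j, F ⊆ face j := by
  rw [P_eq] at hF hFP
  obtain ⟨j, hj⟩ := exposed_subset_hyperplane a (fun j => (b j : ℝ)) hF hne hFP
  refine ⟨j, fun x hx => ⟨?_, hj x hx⟩⟩
  rw [P_eq]
  exact hF.subset hx

theorem pdim_P : pdim P = 7 := by
  have h1 : 7 ≤ pdim P := by
    have hli := linearIndependent_of_cert (n := 7)
      (![V 1, V 2, V 4, V 5, V 14, V 16, V 18])
      (![![0,0,0,1,0,0,0], ![1,-1,1,0,0,0,0], ![0,1,0,0,0,0,0], ![-1,-1,1,0,0,0,0],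
        ![0,0,0,0,1,0,0], ![0,0,0,0,0,1,0], ![0,0,0,0,-1,-1,1]])
      (![1,2,1,2,1,1,2]) (by decide) (by decide +kernel)
    refine le_finrank_of_linearIndependent (m := 7) ?_ hli
    have h0 : v 0 = 0 := by
      ext k
      simp [v, V]
      fin_cases k <;> simp
    have key : ∀ i, v i ∈ vectorSpan ℝ P := by
      intro i
      have := vsub_mem_vectorSpan ℝ (v_mem_P i) (v_mem_P 0)
      rw [h0] at this
      simpa using this
    intro i
    fin_cases i
    · exact key 1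
    · exact key 2
    · exact key 4
    · exact key 5
    · exact key 14
    · exact key 16
    · exact key 18
  have h2 : pdim P ≤ 7 := by
    have := Submodule.finrank_le (vectorSpan ℝ P)
    simpa [pdim] using this
  omega

/-- first vertices of the difference vectors -/
def d₁ : Fin 8 → Fin 6 → Fin 19 := ![
  ![3, 4, 8, 14, 16, 18], ![3, 4, 8, 14, 17, 18], ![3, 4, 8, 15, 16, 18], ![3, 4, 8, 15, 17, 18],
  ![1, 2, 4, 5, 14, 16], ![1, 2, 4, 5, 14, 17], ![1, 2, 4, 5, 15, 16], ![1, 2, 4, 5, 15, 17]]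

/-- second vertices of the difference vectors -/
def d₂ : Fin 8 → Fin 6 → Fin 19 := ![
  ![2, 3, 2, 2, 2, 2], ![2, 3, 2, 2, 2, 2], ![2, 3, 2, 2, 2, 2], ![2, 3, 2, 2, 2, 2],
  ![0, 0, 0, 0, 0, 0], ![0, 0, 0, 0, 0, 0], ![0, 0, 0, 0, 0, 0], ![0, 0, 0, 0, 0, 0]]

/-- left inverses -/
def Lf : Fin 8 → Fin 6 → Fin 7 → ℤ := ![
  ![![0,1,0,0,0,0,0], ![-1,0,1,0,0,0,0], ![0,0,0,1,0,0,0], ![0,0,0,0,1,0,0], ![0,0,0,0,0,1,0],
    ![0,0,0,0,-1,-1,1]],
  ![![0,1,0,0,0,0,0], ![-1,0,1,0,0,0,0], ![0,0,0,1,0,0,0], ![0,0,0,0,1,0,0], ![0,0,0,0,0,-1,0],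
    ![0,0,0,0,-1,1,1]],
  ![![0,1,0,0,0,0,0], ![-1,0,1,0,0,0,0], ![0,0,0,1,0,0,0], ![0,0,0,0,-1,0,0], ![0,0,0,0,0,1,0],
    ![0,0,0,0,1,-1,1]],
  ![![0,1,0,0,0,0,0], ![-1,0,1,0,0,0,0], ![0,0,0,1,0,0,0], ![0,0,0,0,-1,0,0], ![0,0,0,0,0,-1,0],
    ![0,0,0,0,1,1,1]],
  ![![0,0,0,1,0,0,0], ![1,-1,1,0,0,0,0], ![0,1,0,0,0,0,0], ![-1,-1,1,0,0,0,0], ![0,0,0,0,1,0,0],
    ![0,0,0,0,0,1,0]],
  ![![0,0,0,1,0,0,0], ![1,-1,1,0,0,0,0], ![0,1,0,0,0,0,0], ![-1,-1,1,0,0,0,0], ![0,0,0,0,1,0,0],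
    ![0,0,0,0,0,-1,0]],
  ![![0,0,0,1,0,0,0], ![1,-1,1,0,0,0,0], ![0,1,0,0,0,0,0], ![-1,-1,1,0,0,0,0], ![0,0,0,0,-1,0,0],
    ![0,0,0,0,0,1,0]],
  ![![0,0,0,1,0,0,0], ![1,-1,1,0,0,0,0], ![0,1,0,0,0,0,0], ![-1,-1,1,0,0,0,0], ![0,0,0,0,-1,0,0],
    ![0,0,0,0,0,-1,0]]]

/-- diagonal entries -/
def Df : Fin 8 → Fin 6 → ℤ := ![
  ![1,1,1,1,1,2], ![1,1,1,1,1,2], ![1,1,1,1,1,2], ![1,1,1,1,1,2],
  ![1,2,1,2,1,1], ![1,2,1,2,1,1], ![1,2,1,2,1,1], ![1,2,1,2,1,1]]

/-- the eight facets containing `σ` -/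
def big (j : Fin 8) : Fin 19 := ⟨j.val + 11, by omega⟩

theorem d₁_mem : ∀ j i, slack (d₁ j i) (big j) = 0 := by decide +kernel
theorem d₂_mem : ∀ j i, slack (d₂ j i) (big j) = 0 := by decide +kernel
theorem Df_ne : ∀ j i, Df j i ≠ 0 := by decide +kernel
theorem Lf_spec : ∀ j i i', ∑ k, Lf j i k * (V (d₁ j i') k - V (d₂ j i') k) =
    if i = i' then Df j i else 0 := by decide +kernel

theorem pdim_face (j : Fin 8) : pdim (face (big j)) = 6 := by
  have h1 : 6 ≤ pdim (face (big j)) := by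
    have hli := linearIndependent_of_cert (n := 7)
      (fun i k => V (d₁ j i) k - V (d₂ j i) k) (Lf j) (Df j) (Df_ne j) (Lf_spec j)
    refine le_finrank_of_linearIndependent (m := 6) ?_ hli
    intro i
    have := vsub_mem_vectorSpan ℝ (v_mem_face.2 (d₁_mem j i)) (v_mem_face.2 (d₂_mem j i))
    convert this using 1
    ext k
    simp [v]
  have h2 : pdim (face (big j)) ≤ 6 := by
    have hle : vectorSpan ℝ (face (big j)) ≤
        LinearMap.ker (a (big j) : EuclideanSpace ℝ (Fin 7) →ₗ[ℝ] ℝ) := by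
      intro w hw
      have := eq_of_mem_vectorSpan (a (big j)) (c := b (big j)) (fun x hx => hx.2) hw
      simpa using this
    have h3 := finrank_ker_add_one (a_ne (big j))
    have h4 := Submodule.finrank_mono hle
    simp at h3
    have h5 : pdim (face (big j)) = Module.finrank ℝ (vectorSpan ℝ (face (big j))) := rfl
    omega
  omega

theorem face_facet (j : Fin 8) : face (big j) ∈ facets P := by
  refine ⟨face_exposed _, ⟨v (d₁ j 0), v_mem_face.2 (d₁_mem j 0)⟩, ?_⟩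
  rw [pdim_face, pdim_P]

theorem facet_eq_face {F : Set (EuclideanSpace ℝ (Fin 7))} (hF : F ∈ facets P) :
    ∃ j, F = face j := by
  obtain ⟨hexp, hne, hdim⟩ := hF
  rw [pdim_P] at hdim
  have hFP : F ≠ P := by
    rintro rfl
    rw [pdim_P] at hdim
    omega
  obtain ⟨j, hj⟩ := subset_face hexp hne hFP
  refine ⟨j, ?_⟩
  apply exposed_eq_hyperplane_section hexp hne (a_ne j) (fun x hx => (hj hx).2)
  simpa [pdim] using hdim

theorem slack_pattern : ∀ j j', (∀ i, slack i j = 0 → slack i j' = 0) → j = j' := by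
  decide +kernel

theorem face_le {j j' : Fin 19} (h : face j ⊆ face j') : j = j' :=
  slack_pattern j j' fun _ hi => v_mem_face.1 (h (v_mem_face.2 hi))

theorem sigma_slack : ∀ i : Fin 19, 2 ≤ i.val → i.val ≤ 13 → ∀ j : Fin 19, 11 ≤ j.val →
    slack i j = 0 := by
  decide +kernel

theorem no_assignment : ¬ HasVertexFacetAssignment P := by
  rintro (⟨f, hf, hfv⟩ | ⟨g, hg, hgv⟩)
  · choose idx hidx using fun F : facets P => facet_eq_face F.2
    let S : Finset (Fin 19) := Finset.univ.filter fun i => 2 ≤ i.val ∧ i.val ≤ 13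
    let T : Finset (Fin 19) := Finset.univ.filter fun j => j.val < 11
    have hcard : S.card ≤ T.card := by
      refine Finset.card_le_card_of_injOn (fun i => idx (f ⟨v i, extreme_v i⟩)) ?_ ?_
      · intro i hi
        simp only [S, Finset.coe_filter, Finset.mem_univ, true_and, mem_ofPred_eq] at hi
        simp only [T, Finset.coe_filter, Finset.mem_univ, true_and, mem_ofPred_eq]
        by_contra hcon
        have h1 := hfv ⟨v i, extreme_v i⟩
        apply h1
        rw [hidx]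
        exact v_mem_face.2 (sigma_slack i hi.1 hi.2 _ (by omega))
      · intro i _ i' _ h
        simp only at h
        have h1 : (f ⟨v i, extreme_v i⟩ : Set (EuclideanSpace ℝ (Fin 7))) =
            f ⟨v i', extreme_v i'⟩ := by
          rw [hidx (f ⟨v i, extreme_v i⟩), hidx (f ⟨v i', extreme_v i'⟩), h]
        have h2 := hf (Subtype.ext h1)
        exact v_injective (congrArg Subtype.val h2)
    have h1 : S.card = 12 := by decide
    have h2 : T.card = 11 := by decide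
    omega
  · choose vi hvi using fun x : P.extremePoints ℝ => extreme_subset x.2
    let T : Finset (Fin 19) := Finset.univ.filter fun i => ¬ (2 ≤ i.val ∧ i.val ≤ 13)
    have hcard : (Finset.univ : Finset (Fin 8)).card ≤ T.card := by
      refine Finset.card_le_card_of_injOn (fun j => vi (g ⟨face (big j), face_facet j⟩)) ?_ ?_
      · intro j _
        simp only [T, Finset.coe_filter, Finset.mem_univ, true_and, mem_ofPred_eq]
        intro hcon
        have h1 := hgv ⟨face (big j), face_facet j⟩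
        apply h1
        rw [← hvi]
        exact v_mem_face.2 (sigma_slack _ hcon.1 hcon.2 _ (by simp [big]))
      · intro j _ j' _ h
        simp only at h
        have h1 : (g ⟨face (big j), face_facet j⟩ : EuclideanSpace ℝ (Fin 7)) =
            g ⟨face (big j'), face_facet j'⟩ := by
          rw [← hvi (g ⟨face (big j), face_facet j⟩), ← hvi (g ⟨face (big j'), face_facet j'⟩), h]
        have h2 := hg (Subtype.ext h1)
        have h3 : face (big j) = face (big j') := congrArg Subtype.val h2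
        have h4 : big j = big j' := face_le h3.subset
        have h5 := congrArg Fin.val h4
        simp only [big] at h5
        exact Fin.ext (by omega)
    have h2 : T.card = 7 := by decide
    simp at hcard
    omega

theorem face_ne_P (j : Fin 19) : face j ≠ P := by
  intro h
  have h1 : ∀ i, slack i j = 0 := fun i => v_mem_face.1 (by rw [h]; exact v_mem_P i)
  have h2 : ∀ j, ∃ i, slack i j ≠ 0 := by decide +kernel
  obtain ⟨i, hi⟩ := h2 j
  exact hi (h1 i)

theorem face_nonempty (j : Fin 19) : (face j).Nonempty := by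
  have h2 : ∀ j, ∃ i, slack i j = 0 := by decide +kernel
  obtain ⟨i, hi⟩ := h2 j
  exact ⟨v i, v_mem_face.2 hi⟩

theorem face_max (j : Fin 19) (G : Set (EuclideanSpace ℝ (Fin 7))) (hG : IsExposed ℝ P G)
    (h : face j ⊆ G) : G = face j ∨ G = P := by
  by_cases hGP : G = P
  · right; exact hGP
  · left
    obtain ⟨j', hj'⟩ := subset_face hG ((face_nonempty j).mono h) hGP
    have := face_le (h.trans hj')
    subst this
    exact hj'.antisymm h

theorem not_join : ¬ IsFreeJoin P := by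
  rintro ⟨m, P₁, P₂, ⟨S₁, hS₁⟩, ⟨S₂, hS₂⟩, hne₁, hne₂, hdim, ⟨Φ⟩⟩
  have hc₁ : Convex ℝ P₁ := by rw [hS₁]; exact convex_convexHull ℝ _
  have hc₂ : Convex ℝ P₂ := by rw [hS₂]; exact convex_convexHull ℝ _
  obtain ⟨F₁, F₂, hF₁, hF₂, hE₁, hE₂, hdisj, hv, hf⟩ :=
    Pool.Agent.R176.JoinLattice.exists_split hc₁ hc₂ hne₁ hne₂ hdim Φ
  have hface : ∀ j, F₁ ⊆ face j ∨ F₂ ⊆ face j := fun j =>
    hf (face j) (face_exposed j) (face_nonempty j) (face_ne_P j) (face_max j)
  have hvv : ∀ i, v i ∈ F₁ ∨ v i ∈ F₂ := fun i => hv (v i) (exposed_v i)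
  have hnot : ∀ i, v i ∈ F₁ → v i ∉ F₂ := by
    intro i h1 h2
    have : v i ∈ F₁ ∩ F₂ := ⟨h1, h2⟩
    rw [hdisj] at this
    exact this
  have link : ∀ i i' j, slack i j ≠ 0 → slack i' j ≠ 0 → (v i ∈ F₁ ↔ v i' ∈ F₁) := by
    intro i i' j h h'
    rcases hface j with hj | hj
    · have h1 : v i ∉ F₁ := fun hc => h (v_mem_face.1 (hj hc))
      have h2 : v i' ∉ F₁ := fun hc => h' (v_mem_face.1 (hj hc))
      exact ⟨fun hc => absurd hc h1, fun hc => absurd hc h2⟩
    · have h1 : v i ∉ F₂ := fun hc => h (v_mem_face.1 (hj hc))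
      have h2 : v i' ∉ F₂ := fun hc => h' (v_mem_face.1 (hj hc))
      exact ⟨fun _ => (hvv i').resolve_right h2, fun _ => (hvv i).resolve_right h1⟩
  have hall : ∀ i, (v i ∈ F₁ ↔ v 2 ∈ F₁) := by
    have e8 : v 8 ∈ F₁ ↔ v 2 ∈ F₁ := link 8 2 1 (by decide +kernel) (by decide +kernel)
    have e15 : v 15 ∈ F₁ ↔ v 2 ∈ F₁ := link 15 2 7 (by decide +kernel) (by decide +kernel)
    intro i
    fin_cases i
    · exact link 0 2 7 (by decide +kernel) (by decide +kernel)
    · exact (link 1 8 6 (by decide +kernel) (by decide +kernel)).trans e8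
    · exact Iff.rfl
    · exact link 3 2 1 (by decide +kernel) (by decide +kernel)
    · exact link 4 2 1 (by decide +kernel) (by decide +kernel)
    · exact link 5 2 2 (by decide +kernel) (by decide +kernel)
    · exact link 6 2 2 (by decide +kernel) (by decide +kernel)
    · exact link 7 2 2 (by decide +kernel) (by decide +kernel)
    · exact e8
    · exact link 9 2 1 (by decide +kernel) (by decide +kernel)
    · exact link 10 2 1 (by decide +kernel) (by decide +kernel)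
    · exact link 11 2 2 (by decide +kernel) (by decide +kernel)
    · exact link 12 2 2 (by decide +kernel) (by decide +kernel)
    · exact link 13 2 2 (by decide +kernel) (by decide +kernel)
    · exact link 14 2 9 (by decide +kernel) (by decide +kernel)
    · exact e15
    · exact link 16 2 8 (by decide +kernel) (by decide +kernel)
    · exact link 17 2 7 (by decide +kernel) (by decide +kernel)
    · exact (link 18 15 15 (by decide +kernel) (by decide +kernel)).trans e15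
  obtain ⟨_, ⟨i₁, rfl⟩, hi₁⟩ := Pool.Agent.R176.JoinLattice.face_meets hE₁ hF₁
  obtain ⟨_, ⟨i₂, rfl⟩, hi₂⟩ := Pool.Agent.R176.JoinLattice.face_meets hE₂ hF₂
  exact hnot i₂ ((hall i₂).2 ((hall i₁).1 hi₁)) hi₂

theorem isPolytope_P : IsPolytope P := by
  classical
  refine ⟨Finset.univ.image v, ?_⟩
  simp [P]

/-- There is a 7-dimensional convex polytope that has no vertex-facet assignment and is not
combinatorially equivalent to a free join. -/
theorem result : ∃ P : Set (EuclideanSpace ℝ (Fin 7)),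
    IsPolytope P ∧ pdim P = 7 ∧ ¬ HasVertexFacetAssignment P ∧ ¬ IsFreeJoin P :=
  ⟨P, isPolytope_P, pdim_P, no_assignment, not_join⟩

end Pool.Agent.Results.MP_7ca032_co.NonJoinSeven
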